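import Pool.Agent.H482R3.EA.Stm

set_option autoImplicit false

/-! Project EA: assembly of Part I (helper976). -/

namespace Pool.Agent.H976R.EA

open Pool.Agent.H482R3.EA NF

theorem t_NFT (h1 : S_A0) (h2 : S_A1) (h3 : S_A2) (h4 : S_P1) (h5 : S_PTN) (h6 : S_STL)
    (h7 : S_GEN) (h8 : S_VAL) : S_NFT := by
  intro S
  refine ⟨{
    Ω := {h : NF S // Valid h}
    one := ⟨.one, trivial⟩
    act := fun ω l y => ⟨NF.act ω.1 l y, h4 S ω.1 l y ω.2⟩
    st := fun ω => NF.st ω.1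
    act_one := fun ω l => Subtype.ext (h1 S ω.1 l ω.2)
    act_mul := fun ω l y y' => Subtype.ext (h2 S ω.1 l y y' ω.2)
    act_pt := fun ω l m p n hl hm => Subtype.ext (h3 S ω.1 l m p n ω.2 hl hm)
    st_one := rfl
    st_eq_none := ?_
    st_pt := ?_
    st_ln := fun ω l y hD hN hy => (h6 S ω.1 l y ω.2 hD).1 hN hy
    st_ln' := fun ω l y q hD hq hN hy => (h6 S ω.1 l y ω.2 hD).2 q hq hN hy
    gen := ?_
    val := ?_ }⟩
  · rintro ⟨ω, hω⟩ h
    cases ω with
    | one => rfl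
    | pt h' p n => simp [NF.st] at h
    | ln h' l y => simp [NF.st] at h
  · intro ω l p n hp hn hN
    have := h5 S ω.1 l p n ω.2 hp hN
    simp only [hn, if_false] at this
    show NF.st (NF.act ω.1 l (S.x l p ^ n)) = _
    rw [this]
    rfl
  · intro C hone hstep ω
    have := h7 S (fun h => ∀ hv : Valid h, C ⟨h, hv⟩) (fun _ => hone)
      (fun h l y hv hC hA _ => hstep ⟨h, hv⟩ l y (hC hv) hA) ω.1 ω.2
    exact this ω.2
  · intro K _ φ X hX
    obtain ⟨v, hv1, hv2⟩ := h8 S K inferInstance φ X hX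
    exact ⟨fun ω => v ω.1, hv1, fun ω l y => hv2 ω.1 l y⟩

end Pool.Agent.H976R.EA
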